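import Mathlib
import Pool.Agent.H87.Isotypic.Defs
import Pool.Agent.H29.ISO.Point

/-!
# Isotypic free algebras of different ranks

In the variety of modules over the ring `ℤ⟨x₀, x₁, y₀, y₁ | yᵢ xⱼ = δᵢⱼ⟩` all finitely generated free
algebras of positive rank are isotypic, no two of different ranks are isomorphic, and for all
positive ranks `m, n` (equal or not) the point given by the free generators of the first algebra
has the same type as a point of the second one that is not conjugate to it.
-/

set_option autoImplicit false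

open FirstOrder FirstOrder.Language

namespace Pool.Agent.Results.MP_9f131e_lc.IsotypicFreeAlgebras

open Pool.Agent.H87.Isotypic

/-- There are a signature with finitely many operation symbols (and no relation symbols), a finite
set `E` of identities and, for every `n`, a free algebra `H n` of the variety defined by `E` on `n`
generators `g n`, such that for all `m, n ≥ 1` the algebras `H m` and `H n` are isotypic, they are
isomorphic only if `m = n`, and there is a point `ν` of `H n` with the same logical kernel as the
point `g m` of `H m` which no isomorphism from `H m` to `H n` matches with `g m`. -/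
theorem result :
    ∃ (L : FirstOrder.Language.{0, 0}) (_ : L.IsAlgebraic) (_ : Finite (Σ n, L.Functions n))
      (E : Set (L.Term ℕ × L.Term ℕ)) (_ : E.Finite)
      (H : ℕ → Type) (_ : ∀ n, L.Structure (H n)) (g : ∀ n, Fin n → H n),
      (∀ n, IsFreeOn L E (H n) (g n)) ∧
      ∀ m n : ℕ, 1 ≤ m → 1 ≤ n →
        Isotypic L (H m) (H n) ∧
        (m ≠ n → IsEmpty (H m ≃[L] H n)) ∧
        ∃ ν : Fin m → H n, LKer L (g m) = LKer L ν ∧
          ¬ ∃ σ : H m ≃[L] H n, ∀ i, σ (g m i) = ν i := by
  refine ⟨Pool.Agent.H29.ISO.Lm, inferInstance, Pool.Agent.H29.ISO.finite_Op,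
    Pool.Agent.H29.ISO.Ids, Pool.Agent.H29.ISO.Ids_finite, fun n => Pool.Agent.H29.ISO.H (Fin n),
    fun _ => Pool.Agent.H29.ISO.instH, fun _ k => Pool.Agent.H29.ISO.gen k,
    Pool.Agent.H29.ISO.isFree, fun m n hm hn => ⟨?_, Pool.Agent.H29.ISO.not_iso,
      Pool.Agent.H29.ISO.points m n hm hn⟩⟩
  obtain ⟨m, rfl⟩ : ∃ k, m = k + 1 := ⟨m - 1, by omega⟩
  obtain ⟨n, rfl⟩ : ∃ k, n = k + 1 := ⟨n - 1, by omega⟩
  exact Pool.Agent.H29.ISO.isotypic m n

end Pool.Agent.Results.MP_9f131e_lc.IsotypicFreeAlgebras
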